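import Mathlib

set_option autoImplicit false

namespace Pool.Agent.H.MP_b9b46b_al

open MvPolynomial

def Exch (A : Type*) [CommRing A] : Prop :=
  ∀ a b : A, IsCoprime a b → ∃ e : A, e * e = e ∧ a ∣ e ∧ b ∣ 1 - e

theorem eval_idem {A : Type*} [CommRing A] {σ : Type*} (f : MvPolynomial σ A) {e : A}
    (he : e * e = e) (y z : σ → A) (h : ∀ i, e * y i = e * z i) :
    e * eval y f = e * eval z f := by
  induction f using MvPolynomial.induction_on with
  | C a => simp
  | add p q hp hq => rw [map_add, map_add, mul_add, mul_add, hp, hq]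
  | mul_X p i hp =>
    rw [map_mul, map_mul, eval_X, eval_X]
    calc e * (eval y p * y i) = (e * eval y p) * (e * y i) := by linear_combination (eval y p * y i) * he.symm
      _ = (e * eval z p) * (e * z i) := by rw [hp, h]
      _ = _ := by linear_combination (eval z p * z i) * he

theorem unit_of_exch {A : Type*} [CommRing A] (hA : Exch A) {σ : Type*} (f : MvPolynomial σ A)
    (h : ∀ M : Ideal A, M.IsMaximal → ∃ y : σ → A, eval y f ∉ M) :
    ∃ y : σ → A, IsUnit (eval y f) := by
  classical
  have key : ∀ (s : Finset (σ → A)) (ε : A), ε * ε = ε →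
      ε ∈ Ideal.span ((fun y => eval y f) '' (s : Set (σ → A))) → ∃ y : σ → A, eval y f ∣ ε := by
    intro s
    induction s using Finset.induction_on with
    | empty =>
      intro ε _ h
      simp only [Finset.coe_empty, Set.image_empty, Ideal.span_empty, Ideal.mem_bot] at h
      exact ⟨0, h ▸ dvd_zero _⟩
    | insert y s _ ih =>
      intro ε hε h
      rw [Finset.coe_insert, Set.image_insert_eq, Ideal.mem_span_insert] at h
      obtain ⟨c, j, hj, hc⟩ := h
      obtain ⟨e, he, ⟨u, hu⟩, ⟨v, hv⟩⟩ := hA (eval y f) (j + 1 - ε) ⟨c, 1, by linear_combination -hc⟩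
      obtain ⟨z, w, hw⟩ := ih (ε * (1 - e)) (by linear_combination (1 - e) ^ 2 * hε + ε * he) (by
        have : ε * (1 - e) = (ε * v) * j := by linear_combination ε * hv - v * hε
        rw [this]
        exact Ideal.mul_mem_left _ _ hj)
      let t : σ → A := fun i => e * y i + (1 - e) * z i
      have h1 : e * eval t f = e * eval y f :=
        eval_idem f he t y (fun i => by simp only [t]; linear_combination (y i - z i) * he)
      have h2 : (1 - e) * eval t f = (1 - e) * eval z f :=
        eval_idem f (by linear_combination he) t z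
          (fun i => by simp only [t]; linear_combination (z i - y i) * he)
      refine ⟨t, ε * e * u + (1 - e) * w, ?_⟩
      have h3 : e = e * eval y f * u := by linear_combination e * hu - he
      linear_combination ε * h3 - ε * u * h1 - w * h2 + (1 - e) * hw - ε * he
  have htop : Ideal.span (Set.range fun y : σ → A => eval y f) = ⊤ := by
    by_contra hne
    obtain ⟨M, hM, hle⟩ := Ideal.exists_le_maximal _ hne
    obtain ⟨y, hy⟩ := h M hM
    exact hy (hle (Ideal.subset_span ⟨y, rfl⟩))
  have h1 : (1 : A) ∈ Ideal.span (Set.range fun y : σ → A => eval y f) := htop ▸ Submodule.mem_top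
  obtain ⟨s, hs, h2⟩ := Submodule.mem_span_finite_of_mem_span h1
  obtain ⟨t, ht⟩ := Finset.subset_set_image_iff.1 (Set.image_univ ▸ hs)
  obtain ⟨y, hy⟩ := key t 1 (one_mul 1) (by
    rw [← ht.2] at h2
    simpa using h2)
  exact ⟨y, isUnit_of_dvd_one hy⟩

theorem local_to_res {A : Type*} [CommRing A] {σ : Type*} (f : MvPolynomial σ A) (M : Ideal A)
    [M.IsMaximal] (x : σ → Localization.AtPrime M) (hx : IsUnit (aeval x f)) :
    ∃ y : σ → A, eval y f ∉ M := by
  choose y hy using fun i => Ideal.algebraMap_residueField_surjective M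
    (algebraMap (Localization.AtPrime M) M.ResidueField (x i))
  refine ⟨y, fun h => ?_⟩
  have h1 := (hx.map (algebraMap (Localization.AtPrime M) M.ResidueField)).ne_zero
  apply h1
  rw [← aeval_algebraMap_apply]
  have : algebraMap (Localization.AtPrime M) M.ResidueField ∘ x = algebraMap A M.ResidueField ∘ y :=
    funext fun i => (hy i).symm
  rw [this, aeval_algebraMap_apply, Ideal.algebraMap_residueField_eq_zero]
  exact h

theorem exch_of {A : Type*} [CommRing A] [Lattice A] {ι : Type*} {T : ι → Type*}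
    [∀ i, CommRing (T i)] [∀ i, LinearOrder (T i)] [∀ i, IsOrderedRing (T i)]
    (φ : ∀ i, A →+* T i) (hsup : ∀ i a b, φ i (a ⊔ b) = φ i a ⊔ φ i b)
    (hinj : ∀ a b, (∀ i, φ i a = φ i b) → a = b)
    (hbi : ∀ x : A, 1 < x → IsUnit x)
    (hb : ∀ a b : A, 0 ≤ a → 0 ≤ b → IsCoprime a b → ∃ u, IsUnit (a - b * u ^ 2)) : Exch A := by
  have hle : ∀ a b : A, (∀ i, φ i a ≤ φ i b) → a ≤ b := by
    intro a b h
    rw [← sup_eq_right]
    exact hinj _ _ fun i => by rw [hsup, sup_eq_right.2 (h i)]
  have hunit : ∀ w x : A, IsUnit w → (∀ i, 0 ≤ φ i w) → (∀ i, φ i w ≤ φ i x) → IsUnit x := by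
    intro w x hw h0 h1
    obtain ⟨v, hv⟩ := hw.exists_right_inv
    have h2 : 1 ≤ x * v := hle _ _ fun i => by
      have h3 : φ i w * φ i v = 1 := by rw [← map_mul, hv, map_one]
      have h4 : 0 ≤ φ i v := by
        have : φ i v = φ i w * (φ i v * φ i v) := by rw [← mul_assoc, h3, one_mul]
        rw [this]
        exact mul_nonneg (h0 i) (mul_self_nonneg _)
      rw [map_one, map_mul, ← h3]
      exact mul_le_mul_of_nonneg_right (h1 i) h4
    have h3 : IsUnit (x * v) := by
      rcases h2.eq_or_lt with h | h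
      · rw [← h]; exact isUnit_one
      · exact hbi _ h
    exact isUnit_of_mul_isUnit_left h3
  intro a b hab
  have hsq : ∀ c : A, 0 ≤ c ^ 2 := fun c => hle _ _ fun i => by
    rw [map_zero, map_pow]; exact sq_nonneg _
  obtain ⟨u, hu⟩ := hb (a ^ 2) (b ^ 2) (hsq a) (hsq b) hab.pow
  set g := a ^ 2 - b ^ 2 * u ^ 2 with hg
  let p := g ⊔ 0
  let n := (-g) ⊔ 0
  have hp : ∀ i, φ i p = φ i g ⊔ 0 := fun i => by rw [hsup, map_zero]
  have hn : ∀ i, φ i n = (-φ i g) ⊔ 0 := fun i => by rw [hsup, map_zero, map_neg]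
  have h1 : p * n = 0 := hinj _ _ fun i => by
    rw [map_mul, hp, hn, map_zero]
    rcases le_total (φ i g) 0 with h | h
    · rw [sup_eq_right.2 h, zero_mul]
    · rw [sup_eq_right.2 (neg_nonpos.2 h), mul_zero]
  have h2 : p - n = g := hinj _ _ fun i => by
    rw [map_sub, hp, hn]
    rcases le_total (φ i g) 0 with h | h
    · rw [sup_eq_right.2 h, sup_eq_left.2 (neg_nonneg.2 h)]; simp
    · rw [sup_eq_right.2 (neg_nonpos.2 h), sup_eq_left.2 h]; simp
  have h3 : IsUnit (p + n) := by
    have : (p + n) * (p + n) = g * g := by rw [← h2]; linear_combination 4 * h1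
    exact isUnit_of_mul_isUnit_left (this ▸ hu.mul hu)
  have h4 : ∀ i, 0 ≤ φ i (p + n) := fun i => by
    rw [map_add, hp, hn]
    exact add_nonneg le_sup_right le_sup_right
  have h5 : IsUnit (a ^ 2 + n) := hunit _ _ h3 h4 fun i => by
    rw [map_add, map_add, hp, hg, map_sub, map_mul, map_pow, map_pow, map_pow]
    refine add_le_add_left (sup_le ?_ (sq_nonneg _)) _
    exact sub_le_self _ (mul_nonneg (sq_nonneg _) (sq_nonneg _))
  have h6 : IsUnit (p + b ^ 2 * u ^ 2) := hunit _ _ h3 h4 fun i => by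
    rw [map_add, map_add, hn, hg, map_sub, map_mul, map_pow, map_pow, map_pow, neg_sub]
    refine add_le_add_right (sup_le ?_ (mul_nonneg (sq_nonneg _) (sq_nonneg _))) _
    exact sub_le_self _ (sq_nonneg _)
  obtain ⟨v, hv⟩ := h3.exists_right_inv
  obtain ⟨v1, hv1⟩ := h5.exists_right_inv
  obtain ⟨v2, hv2⟩ := h6.exists_right_inv
  refine ⟨p * v, ?_, ⟨a * v1 * p * v, ?_⟩, ⟨b * u ^ 2 * v2 * n * v, ?_⟩⟩
  · linear_combination (p * v) * hv - v * v * h1
  · linear_combination (-(p * v)) * hv1 + v * v1 * h1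
  · linear_combination (-1 : A) * hv - n * v * hv2 + v * v2 * h1

end Pool.Agent.H.MP_b9b46b_al
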